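import Pool.Agent.Helper60.SB.Defs3

/-!
# MP_7fc85e_an, module U7 : entropy of the level sets in the Euclidean norm
-/

open Finset MeasureTheory
open scoped ENNReal Real

namespace Pool.Agent.Helper33.SB

open Pool.Agent.Helper60.SB

/-- the `L_{2b}` norm of the polynomial with coefficients `μ̄(k) ζ(k)` as a function of `ζ` -/
noncomputable def qp {d : ℕ} (Q : Finset (Fin d → ℤ)) (μ : (Fin d → ℤ) → ℂ) (b : ℕ)
    (z : Q × Bool → ℝ) : ℝ :=
  (eLpNorm (fun x => ∑ k : Q, (starRingEnd ℂ) (μ k) * cco z k * ex (k : Fin d → ℤ) x)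
    ((2 * b : ℕ) : ℝ≥0∞) (tor d)).toReal

/-- the dual exponent of `2 b` -/
noncomputable def p0 (b : ℕ) : ℝ≥0∞ := ENNReal.ofReal (2 * b / (2 * b - 1))

theorem tor1_prob : IsProbabilityMeasure tor1 := by
  constructor
  unfold tor1
  have h : (0 : ℝ) < 2 * π := by positivity
  rw [Measure.smul_apply, Measure.restrict_apply MeasurableSet.univ, Set.univ_inter,
    Real.volume_Ico, sub_zero, smul_eq_mul]
  exact ENNReal.inv_mul_cancel (by simpa using h) ENNReal.ofReal_ne_top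

theorem tor_prob (d : ℕ) : IsProbabilityMeasure (tor d) := by
  have := tor1_prob
  unfold tor
  infer_instance

/-- the polynomial -/
noncomputable def Gf {d : ℕ} (Q : Finset (Fin d → ℤ)) (μ : (Fin d → ℤ) → ℂ)
    (z : Q × Bool → ℝ) (x : Fin d → ℝ) : ℂ :=
  ∑ k : Q, (starRingEnd ℂ) (μ k) * cco z k * ex (k : Fin d → ℤ) x

theorem continuous_ex {d : ℕ} (k : Fin d → ℤ) : Continuous (ex k) := by
  unfold ex
  fun_prop

theorem Gf_memLp {d : ℕ} (Q : Finset (Fin d → ℤ)) (μ : (Fin d → ℤ) → ℂ)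
    (z : Q × Bool → ℝ) (p : ℝ≥0∞) : MemLp (Gf Q μ z) p (tor d) := by
  have := tor_prob d
  have hc : Continuous (Gf Q μ z) := by
    unfold Gf
    exact continuous_finsetSum _ fun k _ => continuous_const.mul (continuous_ex _)
  refine MemLp.of_bound hc.aestronglyMeasurable
    (∑ k : Q, ‖(starRingEnd ℂ) (μ k) * cco z k‖) (Filter.Eventually.of_forall fun x => ?_)
  unfold Gf
  refine (norm_sum_le _ _).trans (le_of_eq ?_)
  refine Finset.sum_congr rfl fun k _ => ?_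
  rw [norm_mul, norm_ex, mul_one]

theorem Gf_add {d : ℕ} (Q : Finset (Fin d → ℤ)) (μ : (Fin d → ℤ) → ℂ)
    (y z : Q × Bool → ℝ) : Gf Q μ (y + z) = Gf Q μ y + Gf Q μ z := by
  funext x
  simp only [Gf, Pi.add_apply, cco]
  rw [← Finset.sum_add_distrib]
  refine Finset.sum_congr rfl fun k _ => ?_
  push_cast; ring

theorem Gf_smul {d : ℕ} (Q : Finset (Fin d → ℤ)) (μ : (Fin d → ℤ) → ℂ)
    (c : ℝ) (z : Q × Bool → ℝ) : Gf Q μ (c • z) = (c : ℂ) • Gf Q μ z := by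
  funext x
  simp only [Gf, Pi.smul_apply, cco, smul_eq_mul]
  rw [Finset.mul_sum]
  refine Finset.sum_congr rfl fun k _ => ?_
  push_cast; ring

/-- `qp` as a seminorm -/
noncomputable def qs {d : ℕ} (Q : Finset (Fin d → ℤ)) (μ : (Fin d → ℤ) → ℂ) (b : ℕ)
    (hb : 1 ≤ b) : Seminorm ℝ (Q × Bool → ℝ) :=
  Seminorm.of (fun z => qp Q μ b z)
    (fun y z => by
      have h1 : eLpNorm (Gf Q μ (y + z)) ((2 * b : ℕ) : ℝ≥0∞) (tor d) ≤
          eLpNorm (Gf Q μ y) ((2 * b : ℕ) : ℝ≥0∞) (tor d) +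
          eLpNorm (Gf Q μ z) ((2 * b : ℕ) : ℝ≥0∞) (tor d) := by
        rw [Gf_add]
        apply eLpNorm_add_le (Gf_memLp Q μ y 1).1 (Gf_memLp Q μ z 1).1
        exact_mod_cast (by omega : 1 ≤ 2 * b)
      have h2 := ENNReal.toReal_mono
        (ENNReal.add_ne_top.2 ⟨(Gf_memLp Q μ y _).2.ne, (Gf_memLp Q μ z _).2.ne⟩) h1
      rw [ENNReal.toReal_add (Gf_memLp Q μ y _).2.ne (Gf_memLp Q μ z _).2.ne] at h2
      exact h2)
    (fun c z => by
      have h1 : eLpNorm (Gf Q μ (c • z)) ((2 * b : ℕ) : ℝ≥0∞) (tor d) =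
          ‖(c : ℂ)‖ₑ * eLpNorm (Gf Q μ z) ((2 * b : ℕ) : ℝ≥0∞) (tor d) := by
        rw [Gf_smul, eLpNorm_const_smul]
      have h2 := congrArg ENNReal.toReal h1
      rw [ENNReal.toReal_mul] at h2
      have h3 : (‖(c : ℂ)‖ₑ).toReal = ‖c‖ := by
        rw [toReal_enorm, Complex.norm_real]
      rw [h3] at h2
      exact h2)

theorem qs_apply {d : ℕ} (Q : Finset (Fin d → ℤ)) (μ : (Fin d → ℤ) → ℂ) (b : ℕ)
    (hb : 1 ≤ b) (z : Q × Bool → ℝ) : qs Q μ b hb z = qp Q μ b z := rfl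

theorem p0_conj (b : ℕ) (hb : 1 ≤ b) : ENNReal.HolderConjugate (p0 b) ((2 * b : ℕ) : ℝ≥0∞) := by
  have hb' : (1 : ℝ) ≤ b := by exact_mod_cast hb
  have hpos : (0 : ℝ) < 2 * b / (2 * b - 1) := by
    apply div_pos <;> linarith
  refine ⟨?_⟩
  have h2 : ((2 * b : ℕ) : ℝ≥0∞) = ENNReal.ofReal (2 * b) := by
    rw [← ENNReal.ofReal_natCast]
    push_cast
    rfl
  rw [h2, p0, ← ENNReal.ofReal_inv_of_pos hpos, ← ENNReal.ofReal_inv_of_pos (by linarith),
    ← ENNReal.ofReal_add (by positivity) (by positivity), inv_one, ← ENNReal.ofReal_one]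
  congr 1
  field_simp
  ring

/-- Hoelder's inequality -/
theorem holder_int {d : ℕ} (b : ℕ) (hb : 1 ≤ b) (h g : (Fin d → ℝ) → ℂ)
    (hh : MemLp h (p0 b) (tor d)) (hh1 : eLpNorm h (p0 b) (tor d) ≤ 1)
    (hg : MemLp g ((2 * b : ℕ) : ℝ≥0∞) (tor d)) :
    ‖∫ x, h x * (starRingEnd ℂ) (g x) ∂(tor d)‖ ≤
      (eLpNorm g ((2 * b : ℕ) : ℝ≥0∞) (tor d)).toReal := by
  have := p0_conj b hb
  have hg' : AEStronglyMeasurable (fun x => (starRingEnd ℂ) (g x)) (tor d) :=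
    Complex.continuous_conj.comp_aestronglyMeasurable hg.1
  have h1 : ‖∫ x, h x * (starRingEnd ℂ) (g x) ∂(tor d)‖ₑ ≤
      eLpNorm h (p0 b) (tor d) *
        eLpNorm (fun x => (starRingEnd ℂ) (g x)) ((2 * b : ℕ) : ℝ≥0∞) (tor d) := by
    refine (enorm_integral_le_lintegral_enorm _).trans ?_
    have h5 : eLpNorm (h • fun x => (starRingEnd ℂ) (g x)) 1 (tor d) ≤
        eLpNorm h (p0 b) (tor d) *
          eLpNorm (fun x => (starRingEnd ℂ) (g x)) ((2 * b : ℕ) : ℝ≥0∞) (tor d) :=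
      eLpNorm_smul_le_mul_eLpNorm (p := p0 b) (q := ((2 * b : ℕ) : ℝ≥0∞)) (r := 1) hg' hh.1
    rw [eLpNorm_one_eq_lintegral_enorm] at h5
    exact h5
  have h2 : eLpNorm (fun x => (starRingEnd ℂ) (g x)) ((2 * b : ℕ) : ℝ≥0∞) (tor d) =
      eLpNorm g ((2 * b : ℕ) : ℝ≥0∞) (tor d) := by
    apply eLpNorm_congr_norm_ae
    exact Filter.Eventually.of_forall fun x => by simp
  rw [h2] at h1
  have h3 : ‖∫ x, h x * (starRingEnd ℂ) (g x) ∂(tor d)‖ₑ ≤
      eLpNorm g ((2 * b : ℕ) : ℝ≥0∞) (tor d) :=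
    h1.trans ((mul_le_mul_left hh1 _).trans (le_of_eq (one_mul _)))
  have h4 := ENNReal.toReal_mono hg.2.ne h3
  rwa [toReal_enorm] at h4

theorem ex_neg {d : ℕ} (k : Fin d → ℤ) (x : Fin d → ℝ) :
    ex (-k) x = (starRingEnd ℂ) (ex k x) := by
  unfold ex
  rw [← Complex.exp_conj]
  congr 1
  simp only [map_mul, Complex.conj_I, map_sum, Complex.conj_ofReal, Pi.neg_apply, Int.cast_neg,
    neg_mul, Finset.sum_neg_distrib, mul_neg, map_intCast]

open Classical in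
/-- restriction to a block -/
noncomputable def mb {d : ℕ} {B : Type} (bl : (Fin d → ℤ) → B) (μ : (Fin d → ℤ) → ℂ) (β : B)
    (k : Fin d → ℤ) : ℂ := if bl k = β then μ k else 0

/-- duality -/
theorem Sset_dual {d : ℕ} (b : ℕ) (hb : 1 ≤ b) (Q : Finset (Fin d → ℤ)) (B : Type) [Fintype B]
    (bl : (Fin d → ℤ) → B) (μ : (Fin d → ℤ) → ℂ) (y : Q × Bool → ℝ)
    (hy : y ∈ Sset Q B bl μ (p0 b)) (z : Q × Bool → ℝ) :
    ∑ i, y i * z i ≤ ∑ β, qp Q (mb bl μ β) b z := by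
  classical
  have := tor_prob d
  obtain ⟨h, hh, hk⟩ := hy
  have hp1 : 1 ≤ p0 b := by
    unfold p0
    rw [← ENNReal.ofReal_one]
    apply ENNReal.ofReal_le_ofReal
    have hb' : (1 : ℝ) ≤ b := by exact_mod_cast hb
    rw [le_div_iff₀ (by linarith)]
    linarith
  have hint : ∀ β, Integrable (h β) (tor d) := fun β =>
    ((hh β).1.mono_exponent hp1).integrable le_rfl
  have hint2 : ∀ β (k : Fin d → ℤ), Integrable (fun x => h β x * ex (-k) x) (tor d) := by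
    intro β k
    refine (hint β).mul_bdd (c := 1) (continuous_ex _).aestronglyMeasurable ?_
    exact Filter.Eventually.of_forall fun x => by rw [norm_ex]
  -- the blockwise identity
  have h1 : ∀ β, ∫ x, h β x * (starRingEnd ℂ) (Gf Q (mb bl μ β) z x) ∂(tor d) =
      ∑ k : Q, mb bl μ β k * fc (h β) k * (starRingEnd ℂ) (cco z k) := by
    intro β
    have : ∀ x, h β x * (starRingEnd ℂ) (Gf Q (mb bl μ β) z x) =
        ∑ k : Q, mb bl μ β k * (starRingEnd ℂ) (cco z k) *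
          (h β x * ex (-(k : Fin d → ℤ)) x) := by
      intro x
      unfold Gf
      rw [map_sum, Finset.mul_sum]
      refine Finset.sum_congr rfl fun k _ => ?_
      rw [map_mul, map_mul, Complex.conj_conj, ex_neg]
      ring
    simp_rw [this]
    rw [integral_finsetSum (f := fun (k : Q) x => mb bl μ β k * (starRingEnd ℂ) (cco z k) *
          (h β x * ex (-(k : Fin d → ℤ)) x)) _ fun k _ => (hint2 β k).const_mul _]
    refine Finset.sum_congr rfl fun k _ => ?_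
    rw [integral_const_mul]
    unfold fc
    ring
  have h2 : ∑ β, ∑ k : Q, mb bl μ β k * fc (h β) k * (starRingEnd ℂ) (cco z k) =
      ∑ k : Q, cco y k * (starRingEnd ℂ) (cco z k) := by
    rw [Finset.sum_comm]
    refine Finset.sum_congr rfl fun k _ => ?_
    rw [Finset.sum_eq_single (bl k)]
    · simp only [mb, if_true]
      rw [hk k]
    · intro β _ hβ
      simp only [mb]
      rw [if_neg (Ne.symm hβ)]
      ring
    · intro hne
      exact absurd (Finset.mem_univ _) hne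
  have h3 : ∑ i, y i * z i = (∑ k : Q, cco y k * (starRingEnd ℂ) (cco z k)).re := by
    rw [Complex.re_sum, Fintype.sum_prod_type]
    refine Finset.sum_congr rfl fun k _ => ?_
    simp only [cco, Fintype.sum_bool, map_add, map_mul, Complex.conj_ofReal, Complex.conj_I,
      Complex.mul_re, Complex.add_re, Complex.add_im, Complex.ofReal_re, Complex.ofReal_im,
      Complex.I_re, Complex.I_im, Complex.mul_im, Complex.neg_re, Complex.neg_im]
    ring
  rw [h3, ← h2]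
  calc (∑ β, ∑ k : Q, mb bl μ β k * fc (h β) k * (starRingEnd ℂ) (cco z k)).re
      ≤ ‖∑ β, ∑ k : Q, mb bl μ β k * fc (h β) k * (starRingEnd ℂ) (cco z k)‖ :=
        Complex.re_le_norm _
    _ ≤ ∑ β, ‖∑ k : Q, mb bl μ β k * fc (h β) k * (starRingEnd ℂ) (cco z k)‖ :=
        norm_sum_le _ _
    _ ≤ ∑ β, qp Q (mb bl μ β) b z := by
        refine Finset.sum_le_sum fun β _ => ?_
        rw [← h1]
        exact holder_int b hb (h β) _ (hh β).1 (hh β).2 (Gf_memLp Q _ z _)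

/-- the sum over the blocks of the square roots of the block sizes -/
theorem sum_blocks {d : ℕ} (Q : Finset (Fin d → ℤ)) (B : Type) [Fintype B]
    (bl : (Fin d → ℤ) → B) (μ : (Fin d → ℤ) → ℂ) (hμ : ∀ k, ‖μ k‖ ≤ 1) :
    ∑ β, Real.sqrt (∑ k ∈ Q, ‖mb bl μ β k‖ ^ 2) ≤ Real.sqrt (Fintype.card B * Q.card) := by
  classical
  have h1 : ∀ β, ∑ k ∈ Q, ‖mb bl μ β k‖ ^ 2 ≤ ((Q.filter fun k => bl k = β).card : ℝ) := by
    intro β
    rw [Finset.card_filter]
    push_cast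
    refine Finset.sum_le_sum fun k _ => ?_
    unfold mb
    by_cases hk : bl k = β
    · rw [if_pos hk, if_pos hk]
      have := hμ k
      have h0 := norm_nonneg (μ k)
      nlinarith
    · rw [if_neg hk, if_neg hk]
      simp
  have h2 : ∑ β, ((Q.filter fun k => bl k = β).card : ℝ) = Q.card := by
    have := Finset.card_eq_sum_card_fiberwise (f := bl) (s := Q) (t := Finset.univ)
      (fun _ _ => Finset.mem_coe.2 (Finset.mem_univ _))
    rw [this]
    push_cast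
    rfl
  calc ∑ β, Real.sqrt (∑ k ∈ Q, ‖mb bl μ β k‖ ^ 2)
      ≤ ∑ β : B, Real.sqrt 1 * Real.sqrt ((Q.filter fun k => bl k = β).card : ℝ) := by
        refine Finset.sum_le_sum fun β _ => ?_
        rw [Real.sqrt_one, one_mul]
        exact Real.sqrt_le_sqrt (h1 β)
    _ ≤ Real.sqrt (∑ _β : B, (1 : ℝ)) *
          Real.sqrt (∑ β : B, ((Q.filter fun k => bl k = β).card : ℝ)) :=
        Real.sum_sqrt_mul_sqrt_le _ (fun _ => zero_le_one) (fun _ => Nat.cast_nonneg _)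
    _ = Real.sqrt (Fintype.card B * Q.card) := by
        rw [h2, ← Real.sqrt_mul (by positivity)]
        simp

theorem seminorm_sum_apply {B E : Type*} [AddCommGroup E] [Module ℝ E] (s : Finset B)
    (f : B → Seminorm ℝ E) (z : E) : (∑ β ∈ s, f β) z = ∑ β ∈ s, f β z := by
  classical
  induction s using Finset.induction_on with
  | empty => simp
  | insert a s ha ih => rw [Finset.sum_insert ha, Finset.sum_insert ha, ← ih]; rfl

/-- Module U7. -/
theorem Sset_l2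
    (sudakov : ∃ C : ℝ, 0 < C ∧ ∀ (ι : Type) [Fintype ι] (q : Seminorm ℝ (ι → ℝ)) (l : ℝ),
      0 < l → ∫ y, q y ∂(gau ι) ≤ l → ∀ ε : ℝ, 0 < ε →
      Cov {y : ι → ℝ | ∀ z : ι → ℝ, ∑ i, y i * z i ≤ q z} (eucl ε) (C * (l / ε) ^ 2))
    (gauss_Lp : ∀ (d b : ℕ) (_ : 1 ≤ b), ∃ C : ℝ, 0 < C ∧
      ∀ (Q : Finset (Fin d → ℤ)) (μ : (Fin d → ℤ) → ℂ),
        Integrable (fun z => qp Q μ b z) (gau (Q × Bool)) ∧
        ∫ z, qp Q μ b z ∂(gau (Q × Bool)) ≤ C * Real.sqrt (∑ k ∈ Q, ‖μ k‖ ^ 2))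
    (d b : ℕ) (hb : 1 ≤ b) : ∃ C : ℝ, 0 < C ∧
    ∀ (Q : Finset (Fin d → ℤ)) (B : Type) [Fintype B] [Nonempty B] (bl : (Fin d → ℤ) → B)
      (μ : (Fin d → ℤ) → ℂ), (∀ k, ‖μ k‖ ≤ 1) → ∀ ε : ℝ, 0 < ε →
      Cov (Sset Q B bl μ (p0 b)) (eucl ε) (C * (Fintype.card B * Q.card / ε ^ 2)) := by
  obtain ⟨C5, hC5, H5⟩ := sudakov
  obtain ⟨C6, hC6, H6⟩ := gauss_Lp d b hb
  refine ⟨C5 * C6 ^ 2, by positivity, ?_⟩
  intro Q B _ _ bl μ hμ ε hε
  rcases Q.eq_empty_or_nonempty with hQ | hQ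
  · subst hQ
    refine ⟨{0}, by simp, ?_⟩
    intro a _
    refine ⟨0, by simp, ?_⟩
    unfold eucl
    rw [Finset.univ_eq_empty, Finset.sum_empty]
    positivity
  · have hB : (0 : ℝ) < Fintype.card B := by exact_mod_cast Fintype.card_pos
    have hQc : (0 : ℝ) < Q.card := by exact_mod_cast hQ.card_pos
    let q : Seminorm ℝ (Q × Bool → ℝ) := ∑ β, qs Q (mb bl μ β) b hb
    have hq : ∀ z, q z = ∑ β, qp Q (mb bl μ β) b z := by
      intro z
      have h1 : q z = ∑ β, qs Q (mb bl μ β) b hb z := seminorm_sum_apply _ _ _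
      rw [h1]
      rfl
    have hl : 0 < C6 * Real.sqrt (Fintype.card B * Q.card) :=
      mul_pos hC6 (Real.sqrt_pos.2 (mul_pos hB hQc))
    have hint : ∫ z, q z ∂(gau (Q × Bool)) ≤ C6 * Real.sqrt (Fintype.card B * Q.card) := by
      simp_rw [hq]
      rw [integral_finsetSum _ fun β _ => (H6 Q (mb bl μ β)).1]
      calc ∑ β, ∫ z, qp Q (mb bl μ β) b z ∂(gau (Q × Bool))
          ≤ ∑ β, C6 * Real.sqrt (∑ k ∈ Q, ‖mb bl μ β k‖ ^ 2) :=
            Finset.sum_le_sum fun β _ => (H6 Q (mb bl μ β)).2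
        _ = C6 * ∑ β, Real.sqrt (∑ k ∈ Q, ‖mb bl μ β k‖ ^ 2) := by rw [Finset.mul_sum]
        _ ≤ _ := mul_le_mul_of_nonneg_left (sum_blocks Q B bl μ hμ) hC6.le
    obtain ⟨t, ht, ht2⟩ := H5 (Q × Bool) q _ hl hint ε hε
    refine ⟨t, ht.trans (le_of_eq ?_), ?_⟩
    · congr 1
      rw [div_pow, mul_pow, Real.sq_sqrt (by positivity)]
      ring
    · intro a ha
      apply ht2
      intro z
      rw [hq]
      exact Sset_dual b hb Q B bl μ a ha z

end Pool.Agent.Helper33.SB
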